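import Pool.Agent.Y174.SD.Stm

/-!
# Project SD: isotrivial systems of polynomials (CONST)
-/

set_option autoImplicit false
set_option linter.unusedSectionVars false

open MvPolynomial

namespace Pool.Agent.Y761.SD

section coef

variable {R : Type*} [CommRing R] {σ : Type*}

/-- Additive map applied to the coefficients. -/
noncomputable def coefFun (D : R →+ R) (P : MvPolynomial σ R) : MvPolynomial σ R :=
  ∑ m ∈ P.support, monomial m (D (coeff m P))

lemma coeff_coefFun (D : R →+ R) (P : MvPolynomial σ R) (m : σ →₀ ℕ) :
    coeff m (coefFun D P) = D (coeff m P) := by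
  classical
  unfold coefFun
  rw [coeff_sum]
  simp only [coeff_monomial]
  rw [Finset.sum_ite_eq' P.support m (fun m => D (coeff m P))]
  split_ifs with h
  · rfl
  · rw [notMem_support_iff.1 h, map_zero]

/-- The additive map of the polynomial ring that acts on the coefficients. -/
noncomputable def cf (σ : Type*) (D : R →+ R) : MvPolynomial σ R →+ MvPolynomial σ R where
  toFun := coefFun D
  map_zero' := by
    ext m
    rw [coeff_coefFun, coeff_zero, map_zero]
  map_add' := fun P Q => by
    ext m
    rw [coeff_coefFun, coeff_add, coeff_add, coeff_coefFun, coeff_coefFun, map_add]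

lemma coeff_cf (D : R →+ R) (P : MvPolynomial σ R) (m : σ →₀ ℕ) :
    coeff m (cf σ D P) = D (coeff m P) := coeff_coefFun D P m

lemma cf_mul (D : R →+ R) (hmul : ∀ x y, D (x * y) = x * D y + y * D x)
    (P Q : MvPolynomial σ R) : cf σ D (P * Q) = P * cf σ D Q + Q * cf σ D P := by
  classical
  ext m
  rw [coeff_cf, coeff_add, coeff_mul, coeff_mul, mul_comm Q,
    coeff_mul, map_sum, ← Finset.sum_add_distrib]
  refine Finset.sum_congr rfl fun x _ => ?_
  rw [hmul, coeff_cf, coeff_cf]
  ring

lemma cf_C (D : R →+ R) (c : R) : cf σ D (C c) = C (D c) := by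
  classical
  ext m
  rw [coeff_cf, coeff_C, coeff_C]
  split_ifs
  · rfl
  · rw [map_zero]

lemma map_one_zero (D : R →+ R) (hmul : ∀ x y, D (x * y) = x * D y + y * D x) : D 1 = 0 := by
  have h := hmul 1 1
  rw [one_mul, one_mul] at h
  exact (left_eq_add.1 h)

lemma cf_X (D : R →+ R) (hmul : ∀ x y, D (x * y) = x * D y + y * D x) (i : σ) :
    cf σ D (X i) = 0 := by
  classical
  ext m
  rw [coeff_cf, coeff_X, coeff_zero]
  split_ifs
  · exact map_one_zero D hmul
  · rw [map_zero]

/-- A derivation with given values on the coefficients and on the variables. -/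
lemma exists_der (D : R →+ R) (hmul : ∀ x y, D (x * y) = x * D y + y * D x)
    (y : σ → MvPolynomial σ R) :
    ∃ E : MvPolynomial σ R →+ MvPolynomial σ R, (∀ a b, E (a * b) = a * E b + b * E a) ∧
      (∀ c, E (C c) = C (D c)) ∧ ∀ i, E (X i) = y i := by
  refine ⟨cf σ D + (mkDerivation R y).toLinearMap.toAddMonoidHom, fun a b => ?_, fun c => ?_,
    fun i => ?_⟩
  · change cf σ D (a * b) + mkDerivation R y (a * b) =
      a * (cf σ D b + mkDerivation R y b) + b * (cf σ D a + mkDerivation R y a)
    rw [cf_mul D hmul, Derivation.leibniz, smul_eq_mul, smul_eq_mul]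
    ring
  · change cf σ D (C c) + mkDerivation R y (C c) = C (D c)
    rw [cf_C, derivation_C, add_zero]
  · change cf σ D (X i) + mkDerivation R y (X i) = y i
    rw [cf_X D hmul, mkDerivation_X, zero_add]

end coef

section chain

variable {K B : Type*} [CommRing K] [CommRing B] [Algebra K B] {n : ℕ}

lemma chain (δ : K →+ K) (hδ : ∀ x y, δ (x * y) = x * δ y + y * δ x)
    (E : B →+ B) (hmul : ∀ x y, E (x * y) = x * E y + y * E x)
    (hE : ∀ c, E (algebraMap K B c) = algebraMap K B (δ c)) (y : Fin n → B)
    (P : MvPolynomial (Fin n) K) :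
    E (aeval y P) = aeval y (cf (Fin n) δ P) + ∑ l, aeval y (pderiv l P) * E (y l) := by
  classical
  induction P using MvPolynomial.induction_on with
  | C c =>
    rw [aeval_C, hE, cf_C, aeval_C]
    simp
  | add p q hp hq =>
    rw [map_add, map_add, hp, hq, map_add, map_add]
    simp only [map_add, add_mul, Finset.sum_add_distrib]
    ring
  | mul_X p i hp =>
    rw [map_mul, aeval_X, hmul, hp, cf_mul δ hδ, cf_X δ hδ, mul_zero,
      zero_add, map_mul, aeval_X]
    have h1 : ∑ l, aeval y (pderiv l (p * X i)) * E (y l) =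
        aeval y p * E (y i) + y i * ∑ l, aeval y (pderiv l p) * E (y l) := by
      have h2 : ∀ l, aeval y (pderiv l (p * X i)) * E (y l) =
          aeval y p * ((if l = i then (1 : B) else 0) * E (y l)) +
            y i * (aeval y (pderiv l p) * E (y l)) := by
        intro l
        rw [Derivation.leibniz, pderiv_X, smul_eq_mul, smul_eq_mul, map_add, map_mul, map_mul,
          aeval_X]
        by_cases h : l = i
        · subst h
          rw [if_pos rfl, Pi.single_eq_same, map_one]
          ring
        · rw [if_neg h, Pi.single_eq_of_ne (Ne.symm h), map_zero]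
          ring
      rw [Finset.sum_congr rfl fun l _ => h2 l, Finset.sum_add_distrib, ← Finset.mul_sum,
        ← Finset.mul_sum]
      congr 2
      rw [Finset.sum_eq_single i]
      · rw [if_pos rfl, one_mul]
      · intro l _ hl
        rw [if_neg hl, zero_mul]
      · intro h
        exact absurd (Finset.mem_univ i) h
    rw [h1]
    ring

end chain

section ker

variable {K R : Type*} [CommRing K] [CommRing R] [Algebra K R] {n : ℕ}

lemma ker_aux (δ : K →+ K) (hδ : ∀ x y, δ (x * y) = x * δ y + y * δ x) (D : R →+ R)
    (hmul : ∀ x y, D (x * y) = x * D y + y * D x)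
    (hD : ∀ c, D (algebraMap K R c) = algebraMap K R (δ c))
    (b : Matrix (Fin n) (Fin n) K) (H : Fin n → Fin n → R)
    (hDH : ∀ l p, D (H l p) = ∑ s, algebraMap K R (b l s) * H s p)
    (a : MvPolynomial (Fin n) K)
    (hab : ∀ d : Fin n →₀ ℕ, δ (coeff d a) +
      coeff d (∑ l, pderiv l a * ∑ p, C (b l p) * X p) = 0)
    (y : Fin n → MvPolynomial (Fin n) R) (hy : y = fun l => ∑ p, C (H l p) * X p)
    (d : Fin n →₀ ℕ) :
    D (coeff d (aeval y a)) = 0 := by
  have h1 := chain (B := MvPolynomial (Fin n) R) δ hδ
    (cf (Fin n) D) (cf_mul D hmul) (fun c => by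
      change cf (Fin n) D (C (algebraMap K R c)) = C (algebraMap K R (δ c))
      rw [cf_C, hD]) y a
  have h2 : ∀ l, cf (Fin n) D (y l) = aeval y (∑ p, C (b l p) * X p) := by
    intro l
    rw [map_sum]
    simp only [map_mul, aeval_C, aeval_X]
    rw [hy]
    simp only [map_sum, cf_mul D hmul, cf_X D hmul, cf_C, mul_zero, zero_add, hDH]
    simp only [Finset.mul_sum, map_mul]
    rw [Finset.sum_comm]
    refine Finset.sum_congr rfl fun s _ => Finset.sum_congr rfl fun p _ => ?_
    change X p * (C (algebraMap K R (b l s)) * C (H s p)) =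
      C (algebraMap K R (b l s)) * (C (H s p) * X p)
    ring
  have h3 : cf (Fin n) δ a + ∑ l, pderiv l a * ∑ p, C (b l p) * X p = 0 := by
    ext d
    rw [coeff_add, coeff_cf, coeff_zero]
    exact hab d
  have h4 : cf (Fin n) D (aeval y a) = 0 := by
    rw [h1, Finset.sum_congr rfl fun l _ => by rw [h2 l, ← map_mul], ← map_sum, ← map_add, h3,
      map_zero]
  rw [← coeff_cf, h4, coeff_zero]

end ker

section disj

variable {k K R : Type*} [Field k] [Field K] [Algebra k K] [CommRing R] [Algebra K R] [Algebra k R]
  [IsScalarTower k K R] {q : ℕ}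

/-- Constants which are independent over `k` are independent over `K`. -/
lemma disj_of_der (δ : Fin q → K →+ K)
    (hδ : ∀ c : K, (∀ i, δ i c = 0) → ∃ b : k, algebraMap k K b = c)
    (D : Fin q → R →+ R) (hmul : ∀ i x y, D i (x * y) = x * D i y + y * D i x)
    (hD : ∀ i c, D i (algebraMap K R c) = algebraMap K R (δ i c)) :
    ∀ (m : ℕ) (v : Fin m → R), (∀ i t, D i (v t) = 0) → LinearIndependent k v →
      LinearIndependent K v := by
  intro m
  induction m with
  | zero => intro v _ _; exact linearIndependent_empty_type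
  | succ m ih =>
    intro v hv hk
    rw [linearIndependent_finSucc'] at hk ⊢
    have h1 : LinearIndependent K (Fin.init v) := ih _ (fun i t => hv i _) hk.1
    refine ⟨h1, fun hmem => hk.2 ?_⟩
    obtain ⟨c, hc⟩ := (Submodule.mem_span_range_iff_exists_fun K).1 hmem
    have h2 : ∀ t, ∃ b : k, algebraMap k K b = c t := by
      intro t
      apply hδ
      intro i
      have h3 : ∑ t, δ i (c t) • Fin.init v t = 0 := by
        have h4 := congrArg (D i) hc
        rw [hv, map_sum] at h4
        rw [← h4]
        refine Finset.sum_congr rfl fun s _ => ?_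
        rw [Algebra.smul_def (c s), hmul, hD]
        have h5 : D i (Fin.init v s) = 0 := hv i _
        rw [h5, mul_zero, zero_add, Algebra.smul_def, mul_comm]
      exact (Fintype.linearIndependent_iff.1 h1) _ h3 t
    choose b hb using h2
    refine (Submodule.mem_span_range_iff_exists_fun k).2 ⟨b, ?_⟩
    rw [← hc]
    refine Finset.sum_congr rfl fun t _ => ?_
    rw [← hb, algebraMap_smul]

end disj

open Pool.Agent.Y174.SD

theorem t_CONST : S_POINT → S_CONST := by
  classical
  intro hP k K _ _ _ _ _ n N q δ hδ a b hab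
  -- the ring of the generic matrix
  let R := MvPolynomial (Fin n × Fin n) K
  let H : Matrix (Fin n) (Fin n) R := Matrix.mvPolynomialX (Fin n) (Fin n) K
  have hdet : H.det ≠ 0 := Matrix.det_mvPolynomialX_ne_zero (Fin n) K
  let S := Localization.Away H.det
  have hSd : IsDomain S := IsLocalization.isDomain_localization
    (powers_le_nonZeroDivisors_of_noZeroDivisors hdet)
  have hinj : Function.Injective (algebraMap R S) := IsLocalization.injective S
    (powers_le_nonZeroDivisors_of_noZeroDivisors hdet)
  have hft : Algebra.FiniteType K S := by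
    have h1 : Algebra.FiniteType R S :=
      IsLocalization.finiteType_of_monoid_fg (Submonoid.powers H.det) S
    exact Algebra.FiniteType.trans inferInstance h1
  -- the derivations
  obtain ⟨δ', hδ'⟩ : ∃ δ' : Fin q → K →+ K, δ' = fun i => (δ i).toLinearMap.toAddMonoidHom :=
    ⟨_, rfl⟩
  have hδe : ∀ i x, δ' i x = δ i x := by
    intro i x
    rw [hδ']
    rfl
  have hδm : ∀ i x y, δ' i (x * y) = x * δ' i y + y * δ' i x := by
    intro i x y
    rw [hδe, hδe, hδe, Derivation.leibniz, smul_eq_mul, smul_eq_mul]
  have hex : ∀ i : Fin q, ∃ E : R →+ R, (∀ x y, E (x * y) = x * E y + y * E x) ∧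
      (∀ c, E (C c) = C (δ' i c)) ∧
      ∀ p : Fin n × Fin n, E (X p) = ∑ s, C (b i p.1 s) * X (s, p.2) := fun i =>
    exists_der (δ' i) (hδm i) fun p => ∑ s, C (b i p.1 s) * X (s, p.2)
  choose D hmul hDC hDX using hex
  -- the substitution
  obtain ⟨y, hy⟩ : ∃ y : Fin n → MvPolynomial (Fin n) R,
    y = fun l => ∑ p, C (X (l, p) : R) * X p := ⟨_, rfl⟩
  have hker : ∀ i j d, D i (coeff d (aeval y (a j))) = 0 := fun i j d =>
    ker_aux (δ' i) (hδm i) (D i) (hmul i) (hDC i) (b i) (fun l p => X (l, p))
      (fun l p => hDX i (l, p)) (a j) (fun d => by rw [hδe]; exact hab i j d) y hy d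
  -- the finitely many coefficients
  let T : Finset (Σ _ : Fin N, (Fin n →₀ ℕ)) :=
    Finset.univ.sigma fun j => (aeval y (a j)).support
  let f0 : Fin T.card → R := fun s =>
    coeff (T.equivFin.symm s).1.2 (aeval y (a (T.equivFin.symm s).1.1))
  let f : Fin T.card → S := fun s => algebraMap R S (f0 s)
  have hcon : ∀ w ∈ Algebra.adjoin k (Set.range f0), ∀ i, D i w = 0 := by
    intro w hw i
    induction hw using Algebra.adjoin_induction with
    | mem z hz =>
      obtain ⟨s, rfl⟩ := hz
      exact hker _ _ _
    | algebraMap r =>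
      have h1 : algebraMap k R r = C (algebraMap k K r) := by
        rw [IsScalarTower.algebraMap_apply k K R]
        rfl
      rw [h1, hDC]
      have h2 : δ' i (algebraMap k K r) = 0 := by
        rw [hδe]
        exact Derivation.map_algebraMap (δ i) r
      rw [h2, map_zero]
    | add x z _ _ hx hz => rw [map_add, hx, hz, add_zero]
    | mul x z _ _ hx hz => rw [hmul, hx, hz, mul_zero, mul_zero, add_zero]
  have hdisj : ∀ (q : ℕ) (u : Fin q → S), (∀ i, u i ∈ Algebra.adjoin k (Set.range f)) →
      LinearIndependent k u → LinearIndependent K u := by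
    intro m u hu hk
    have h1 : ∀ t, ∃ v ∈ Algebra.adjoin k (Set.range f0), algebraMap R S v = u t := by
      intro t
      have h2 := hu t
      have h3 : Set.range f = (IsScalarTower.toAlgHom k R S) '' (Set.range f0) := by
        rw [← Set.range_comp]
        rfl
      rw [h3, ← AlgHom.map_adjoin] at h2
      obtain ⟨v, hv, hv'⟩ := h2
      exact ⟨v, hv, hv'⟩
    choose v hv hvu using h1
    have h4 : LinearIndependent k v := by
      apply LinearIndependent.of_comp (IsScalarTower.toAlgHom k R S).toLinearMap
      have h5 : (IsScalarTower.toAlgHom k R S).toLinearMap ∘ v = u := by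
        funext t
        exact hvu t
      rw [h5]
      exact hk
    have h6 := disj_of_der δ' (fun c hc => hδ c fun i => by rw [← hδe]; exact hc i) D hmul
      (fun i c => hDC i c) m v
      (fun i t => hcon _ (hv t) i) h4
    have h7 := h6.map' (IsScalarTower.toAlgHom K R S).toLinearMap
      (LinearMap.ker_eq_bot.2 hinj)
    have h8 : (IsScalarTower.toAlgHom K R S).toLinearMap ∘ v = u := by
      funext t
      exact hvu t
    rwa [h8] at h7
  obtain ⟨ψ, c, hψ⟩ := hP k K S hft T.card f hdisj
  let g : R →+* AlgebraicClosure K := ψ.toRingHom.comp (algebraMap R S)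
  have hgC : ∀ c : K, g (C c) = algebraMap K (AlgebraicClosure K) c := by
    intro c
    change ψ (algebraMap R S (algebraMap K R c)) = _
    rw [← IsScalarTower.algebraMap_apply, AlgHom.commutes]
  refine ⟨g.mapMatrix H, ?_, ?_⟩
  · rw [← RingHom.map_det]
    have h1 : IsUnit (algebraMap R S H.det) := IsLocalization.Away.algebraMap_isUnit H.det
    exact (h1.map ψ).ne_zero
  · intro j
    have h1 : ∀ P : MvPolynomial (Fin n) K,
        (aeval (fun l => ∑ p, C (g.mapMatrix H l p) * X p) :
          MvPolynomial (Fin n) (AlgebraicClosure K) →ₐ[AlgebraicClosure K]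
            MvPolynomial (Fin n) (AlgebraicClosure K))
          (map (algebraMap K (AlgebraicClosure K)) P) = map g (aeval y P) := by
      intro P
      induction P using MvPolynomial.induction_on with
      | C c =>
        rw [map_C, aeval_C, aeval_C]
        change C (algebraMap K (AlgebraicClosure K) c) = map g (C (C c))
        rw [map_C, hgC]
      | add p q hp hq => rw [map_add, map_add, hp, hq, map_add, map_add]
      | mul_X p l hp =>
        rw [map_mul, map_mul, hp, map_X, aeval_X, map_mul, map_mul, aeval_X, hy]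
        congr 1
        rw [map_sum]
        refine Finset.sum_congr rfl fun p _ => ?_
        rw [map_mul, map_C, map_X]
        rfl
    rw [h1]
    have h2 : ∀ d, ∃ e : k, g (coeff d (aeval y (a j))) = algebraMap k (AlgebraicClosure K) e := by
      intro d
      by_cases hd : d ∈ (aeval y (a j)).support
      · have hm : (⟨j, d⟩ : Σ _ : Fin N, (Fin n →₀ ℕ)) ∈ T :=
          Finset.mem_sigma.2 ⟨Finset.mem_univ j, hd⟩
        refine ⟨c (T.equivFin ⟨⟨j, d⟩, hm⟩), ?_⟩
        rw [← hψ]
        change ψ (algebraMap R S (coeff d (aeval y (a j)))) = ψ (algebraMap R S (f0 _))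
        simp only [f0, Equiv.symm_apply_apply]
      · exact ⟨0, by rw [notMem_support_iff.1 hd, map_zero, map_zero]⟩
    choose e he using h2
    refine ⟨∑ d ∈ (aeval y (a j)).support, monomial d (e d), ?_⟩
    ext d
    rw [coeff_map, coeff_map, coeff_sum]
    simp only [coeff_monomial]
    rw [Finset.sum_ite_eq' (aeval y (a j)).support d e, he]
    split_ifs with h
    · rfl
    · rw [map_zero, ← he, notMem_support_iff.1 h, map_zero]

end Pool.Agent.Y761.SD
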